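import Mathlib

/-!
# A complex symmetric matrix unitarily equivalent to a truncated Toeplitz operator which is not the
# matrix of a truncated Toeplitz operator in a modified Aleksandrov-Clark basis

The unit circle is parametrized by `t ∈ ℝ/ℤ`, `pt t = exp (2 π i t)`. `L2` is the space `L²` of the
circle with normalized Lebesgue measure.
-/

set_option autoImplicit false

open MeasureTheory AddCircle Complex
open scoped InnerProductSpace

namespace Pool.Agent.Results.MP_3119c3_an.ClarkBasisCounterexample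

/-- The circle `ℝ/ℤ`. -/
abbrev Ci : Type := AddCircle (1 : ℝ)

/-- The point `exp (2 π i t)` of the unit circle. -/
noncomputable def pt (t : Ci) : ℂ := (fourier 1 t : ℂ)

/-- `L²` of the circle, with normalized Lebesgue measure. -/
abbrev L2 : Type := Lp ℂ 2 (haarAddCircle : Measure Ci)

/-- The inner product of `L²`, conjugate linear in the first variable. -/
noncomputable def ip (f g : L2) : ℂ := ⟪f, g⟫_ℂ

/-- `f` belongs to the Hardy space `H²`: the Fourier coefficients of negative index vanish. -/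
def InHardy (f : L2) : Prop := ∀ k : ℤ, k < 0 → fourierCoeff (f : Ci → ℂ) k = 0

/-- `f` belongs to the model space `K_Θ = H² ⊖ Θ H²`. -/
def InModel (Θ : ℂ → ℂ) (f : L2) : Prop :=
  InHardy f ∧ ∀ g h : L2, InHardy g →
    ((h : Ci → ℂ) =ᵐ[haarAddCircle] fun t => Θ (pt t) * (g : Ci → ℂ) t) → ip h f = 0

/-- `Θ` is a finite Blaschke product of degree `n` (the inner functions with `dim K_Θ = n`). -/
def IsBlaschke (n : ℕ) (Θ : ℂ → ℂ) : Prop :=
  ∃ (c : ℂ) (a : Fin n → ℂ), ‖c‖ = 1 ∧ (∀ i, ‖a i‖ < 1) ∧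
    ∀ z, Θ z = c * ∏ i, (z - a i) / (1 - (starRingEnd ℂ) (a i) * z)

/-- `A` is the truncated Toeplitz operator `f ↦ P_Θ (φ f)` on `K_Θ`: for `f` in `K_Θ`, `A f` is
the element of `K_Θ` with `⟨g, A f⟩ = ⟨g, φ f⟩` for all `g` in `K_Θ`. -/
def IsTTO (Θ : ℂ → ℂ) (φ : Ci → ℂ) (A : L2 → L2) : Prop :=
  ∀ f, InModel Θ f → InModel Θ (A f) ∧ ∀ g, InModel Θ g →
    ip g (A f) = ∫ t, (starRingEnd ℂ) (g t) * (φ t * f t) ∂haarAddCircle

/-- `b` is an orthonormal basis of `K_Θ`. -/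
def IsBasis {n : ℕ} (Θ : ℂ → ℂ) (b : Fin n → L2) : Prop :=
  (∀ i, InModel Θ (b i)) ∧ (∀ i j, ip (b i) (b j) = if i = j then 1 else 0) ∧
    ∀ f, InModel Θ f → f = ∑ i, ip (b i) f • b i

/-- The boundary kernel `(1 - conj α Θ(z)) / (1 - conj ζ z)`. -/
noncomputable def kern (Θ : ℂ → ℂ) (α ζ z : ℂ) : ℂ :=
  (1 - (starRingEnd ℂ) α * Θ z) / (1 - (starRingEnd ℂ) ζ * z)

/-- The `L²` norm of the boundary kernel. -/
noncomputable def kernNorm (Θ : ℂ → ℂ) (α ζ : ℂ) : ℝ :=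
  Real.sqrt (∫ t, ‖kern Θ α ζ (pt t)‖ ^ 2 ∂(haarAddCircle : Measure Ci))

/-- `e` is a modified Aleksandrov-Clark basis of `K_Θ`: for some `α` on the unit circle, and the
distinct solutions `ζ j` of `Θ ζ = α` on the unit circle, `e j` is the normalized boundary kernel
at `ζ j` multiplied by a number `w j` with `(w j)² = α conj (ζ j)`. -/
def IsModifiedClark {n : ℕ} (Θ : ℂ → ℂ) (e : Fin n → L2) : Prop :=
  (∀ j, InModel Θ (e j)) ∧
  ∃ (α : ℂ) (ζ w : Fin n → ℂ), ‖α‖ = 1 ∧ Function.Injective ζ ∧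
    (∀ j, ‖ζ j‖ = 1 ∧ Θ (ζ j) = α ∧ w j ^ 2 = α * (starRingEnd ℂ) (ζ j)) ∧
    ∀ j, (e j : Ci → ℂ) =ᵐ[haarAddCircle]
      fun t => w j * (kern Θ α (ζ j) (pt t) / kernNorm Θ α (ζ j))

/-- `M` is the matrix of the map `A` with respect to the vectors `b`. -/
def IsMatrixOf {n : ℕ} (M : Matrix (Fin n) (Fin n) ℂ) (A : L2 → L2) (b : Fin n → L2) : Prop :=
  ∀ i j, M i j = ip (b i) (A (b j))

/-- `M` is unitarily equivalent to a truncated Toeplitz operator: it is the matrix of some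
truncated Toeplitz operator with bounded symbol in some orthonormal basis of `K_Θ`. -/
def UnitarilyEquivalentToTTO {n : ℕ} (M : Matrix (Fin n) (Fin n) ℂ) : Prop :=
  ∃ (Θ : ℂ → ℂ) (φ : Ci → ℂ) (A : L2 → L2) (b : Fin n → L2),
    IsBlaschke n Θ ∧ MemLp φ ⊤ haarAddCircle ∧ IsTTO Θ φ A ∧ IsBasis Θ b ∧ IsMatrixOf M A b

/-- `M` is the matrix of a truncated Toeplitz operator with bounded symbol in a modified
Aleksandrov-Clark basis. -/
def ModifiedClarkMatrix {n : ℕ} (M : Matrix (Fin n) (Fin n) ℂ) : Prop :=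
  ∃ (Θ : ℂ → ℂ) (φ : Ci → ℂ) (A : L2 → L2) (e : Fin n → L2),
    IsBlaschke n Θ ∧ MemLp φ ⊤ haarAddCircle ∧ IsTTO Θ φ A ∧ IsModifiedClark Θ e ∧
    IsMatrixOf M A e

/-- the matrix -/
noncomputable def M0 : Matrix (Fin 3) (Fin 3) ℂ := !![0, 1, 0; 1, 0, -I; 0, -I, 0]

/-! ### the negative part -/

lemma norm_pt (t : Ci) : ‖pt t‖ = 1 := by
  rw [pt, fourier_apply, Circle.norm_coe]

lemma pt_inj {s t : Ci} (h : pt s = pt t) : s = t := by
  unfold pt at h
  rw [fourier_one, fourier_one] at h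
  exact (injective_toCircle (T := (1 : ℝ)) one_ne_zero) (Subtype.ext h)

lemma ae_ne (ζ : ℂ) : ∀ᵐ t : Ci ∂haarAddCircle, pt t ≠ ζ := by
  by_cases h : ∃ s : Ci, pt s = ζ
  · obtain ⟨s, rfl⟩ := h
    have h0 : (volume : Measure Ci) {s} = 0 := by
      have := AddCircle.volume_closedBall (T := (1 : ℝ)) (x := s) 0
      rw [Metric.closedBall_zero] at this
      rw [this]
      simp
    have h1 : (haarAddCircle : Measure Ci) {s} = 0 := by
      rw [volume_eq_smul_haarAddCircle] at h0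
      simpa using h0
    have h2 : ∀ᵐ t : Ci ∂haarAddCircle, t ≠ s := compl_mem_ae_iff.mpr h1
    filter_upwards [h2] with t ht hts
    exact ht (pt_inj hts)
  · push Not at h
    exact Filter.Eventually.of_forall h

lemma conj_mul_self {w : ℂ} (hw : ‖w‖ = 1) : (starRingEnd ℂ) w * w = 1 := by
  rw [← normSq_eq_conj_mul_self, normSq_eq_norm_sq, hw]; simp

/-- the pointwise form of a product of two basis vectors -/
lemma prod_form {α ζ ζ' w w' z u : ℂ} {c c' : ℝ} (hα : ‖α‖ = 1) (hζ : ‖ζ‖ = 1)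
    (hw : w ^ 2 = α * (starRingEnd ℂ) ζ) (hz : ‖z‖ = 1) (hzζ : z ≠ ζ) :
    (starRingEnd ℂ) (w * (u / (1 - (starRingEnd ℂ) ζ * z) / c)) *
      (w' * (u / (1 - (starRingEnd ℂ) ζ' * z) / c'))
      = (-(z * (starRingEnd ℂ) α * ((starRingEnd ℂ) u * u))) *
        (w * w' / (c * c' * ((1 - (starRingEnd ℂ) ζ * z) * (1 - (starRingEnd ℂ) ζ' * z)))) := by
  have hwn : ‖w‖ = 1 := by
    have h1 : ‖w‖ ^ 2 = 1 := by
      rw [← norm_pow, hw, norm_mul, hα, RCLike.norm_conj, hζ, one_mul]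
    have h2 := norm_nonneg w
    nlinarith
  have h1 := conj_mul_self hwn
  have h2 := conj_mul_self hζ
  have h3 := conj_mul_self hz
  have h4 := conj_mul_self hα
  have hz0 : z ≠ 0 := by intro h; rw [h, norm_zero] at hz; exact zero_ne_one hz
  have hζ0 : ζ ≠ 0 := by intro h; rw [h, norm_zero] at hζ; exact zero_ne_one hζ
  have ha : (starRingEnd ℂ) (1 - (starRingEnd ℂ) ζ * z)
      = -(ζ * (starRingEnd ℂ) z) * (1 - (starRingEnd ℂ) ζ * z) := by
    rw [map_sub, map_one, map_mul, conj_conj]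
    have h5 : ζ * (starRingEnd ℂ) z * ((starRingEnd ℂ) ζ * z) = 1 := by
      calc _ = ((starRingEnd ℂ) ζ * ζ) * ((starRingEnd ℂ) z * z) := by ring
        _ = 1 := by rw [h2, h3, one_mul]
    linear_combination (-1 : ℂ) * h5
  have hane : 1 - (starRingEnd ℂ) ζ * z ≠ 0 := by
    intro h
    apply hzζ
    have h5 : ζ * ((starRingEnd ℂ) ζ * z) = ζ := by
      rw [(sub_eq_zero.1 h).symm, mul_one]
    rw [← mul_assoc, mul_comm ζ, h2, one_mul] at h5
    exact h5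
  rw [map_mul, map_div₀, map_div₀, ha, conj_ofReal]
  have h6 : (starRingEnd ℂ) w / (-(ζ * (starRingEnd ℂ) z)) = -(z * (starRingEnd ℂ) α * w) := by
    have hzc : (starRingEnd ℂ) z ≠ 0 := by
      intro h; rw [h, zero_mul] at h3; exact zero_ne_one h3
    rw [div_eq_iff (neg_ne_zero.2 (mul_ne_zero hζ0 hzc))]
    have h7 : (starRingEnd ℂ) α * w ^ 2 = (starRingEnd ℂ) ζ := by
      rw [hw, ← mul_assoc, h4, one_mul]
    calc (starRingEnd ℂ) w = (starRingEnd ℂ) w * (((starRingEnd ℂ) ζ * ζ) * ((starRingEnd ℂ) z * z))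
          := by rw [h2, h3]; ring
      _ = (starRingEnd ℂ) w * ((((starRingEnd ℂ) α * w ^ 2) * ζ) * ((starRingEnd ℂ) z * z)) := by
          rw [h7]
      _ = ((starRingEnd ℂ) w * w) * (((starRingEnd ℂ) α * w * ζ) * ((starRingEnd ℂ) z * z)) := by
          ring
      _ = _ := by rw [h1]; ring
  calc (starRingEnd ℂ) w * ((starRingEnd ℂ) u / (-(ζ * (starRingEnd ℂ) z) *
        (1 - (starRingEnd ℂ) ζ * z)) / c) * (w' * (u / (1 - (starRingEnd ℂ) ζ' * z) / c'))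
      = ((starRingEnd ℂ) w / (-(ζ * (starRingEnd ℂ) z))) * ((starRingEnd ℂ) u * u) *
        (w' / (c * c' * ((1 - (starRingEnd ℂ) ζ * z) * (1 - (starRingEnd ℂ) ζ' * z)))) := by
        simp only [div_eq_mul_inv, mul_inv]
        ring
    _ = _ := by
        rw [h6]
        simp only [div_eq_mul_inv, mul_inv]
        ring

lemma three_term {a b c z : ℂ} (ha : 1 - a * z ≠ 0) (hb : 1 - b * z ≠ 0) (hc : 1 - c * z ≠ 0) :
    (a - b) / ((1 - a * z) * (1 - b * z)) + (b - c) / ((1 - b * z) * (1 - c * z)) +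
      (c - a) / ((1 - c * z) * (1 - a * z)) = 0 := by
  rw [div_add_div _ _ (mul_ne_zero ha hb) (mul_ne_zero hb hc),
    div_add_div _ _ (mul_ne_zero (mul_ne_zero ha hb) (mul_ne_zero hb hc)) (mul_ne_zero hc ha),
    div_eq_zero_iff]
  left
  ring

theorem not_modified : ¬ ModifiedClarkMatrix M0 := by
  rintro ⟨Θ, φ, A, e, -, hφ, hA, ⟨hmem, α, ζ, w, hα, hinj, hζ, he⟩, hM⟩
  set c : Fin 3 → ℝ := fun j => kernNorm Θ α (ζ j) with hc
  have hMij : ∀ i j, M0 i j = ∫ t, (starRingEnd ℂ) ((e i : L2) t) * (φ t * (e j : L2) t)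
      ∂haarAddCircle := fun i j => by rw [hM, (hA _ (hmem j)).2 _ (hmem i)]
  -- integrability
  have hint : ∀ i j, Integrable (fun t => (starRingEnd ℂ) ((e i : L2) t) * (φ t * (e j : L2) t))
      haarAddCircle := by
    intro i j
    have h1 : MemLp (fun t => φ t * (e j : L2) t) 2 haarAddCircle :=
      (Lp.memLp (e j : L2)).mul hφ
    have h2 : MemLp (fun t => (starRingEnd ℂ) ((e i : L2) t)) 2 haarAddCircle := by
      have h3 := (Lp.memLp (e i : L2)).star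
      exact h3
    exact h2.integrable_mul h1
  -- the norms do not vanish
  have hc0 : ∀ j, c j ≠ 0 := by
    intro j hj
    have h1 : ((e j : L2) : Ci → ℂ) =ᵐ[haarAddCircle] fun _ => 0 := by
      filter_upwards [he j] with t ht
      rw [ht]
      have : kernNorm Θ α (ζ j) = 0 := hj
      rw [this]
      simp
    have h2 : ∀ i, M0 j i = 0 := by
      intro i
      rw [hMij]
      have : (fun t => (starRingEnd ℂ) ((e j : L2) t) * (φ t * (e i : L2) t))
          =ᵐ[haarAddCircle] fun _ => 0 := by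
        filter_upwards [h1] with t ht
        rw [ht]
        simp
      rw [integral_congr_ae this]
      simp
    fin_cases j
    · have := h2 1
      simp [M0] at this
    · have := h2 0
      simp [M0] at this
    · have := h2 1
      simp [M0] at this
  have hwn : ∀ j, ‖w j‖ = 1 := by
    intro j
    have h1 : ‖w j‖ ^ 2 = 1 := by
      rw [← norm_pow, (hζ j).2.2, norm_mul, hα, RCLike.norm_conj, (hζ j).1, one_mul]
    have h2 := norm_nonneg (w j)
    nlinarith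
  have hw0 : ∀ j, w j ≠ 0 := by
    intro j h
    have := hwn j
    rw [h, norm_zero] at this
    exact zero_ne_one this
  -- the coefficients
  set κ : Fin 3 → Fin 3 → ℂ := fun i j =>
    ((starRingEnd ℂ) (ζ i) - (starRingEnd ℂ) (ζ j)) * (c i * c j) / (w i * w j) with hκ
  have hae : (fun t => κ 0 1 * ((starRingEnd ℂ) ((e 0 : L2) t) * (φ t * (e 1 : L2) t)) +
      κ 1 2 * ((starRingEnd ℂ) ((e 1 : L2) t) * (φ t * (e 2 : L2) t)) +
      κ 2 0 * ((starRingEnd ℂ) ((e 2 : L2) t) * (φ t * (e 0 : L2) t))) =ᵐ[haarAddCircle]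
      fun _ => 0 := by
    filter_upwards [he 0, he 1, he 2, ae_ne (ζ 0), ae_ne (ζ 1), ae_ne (ζ 2)] with t h0 h1 h2 n0 n1 n2
    set z := pt t with hz
    have hz1 : ‖z‖ = 1 := norm_pt t
    set u := 1 - (starRingEnd ℂ) α * Θ z with hu
    have hane : ∀ j, z ≠ ζ j → 1 - (starRingEnd ℂ) (ζ j) * z ≠ 0 := by
      intro j hj h
      apply hj
      have h5 : ζ j * ((starRingEnd ℂ) (ζ j) * z) = ζ j := by
        rw [(sub_eq_zero.1 h).symm, mul_one]
      rw [← mul_assoc, mul_comm (ζ j), conj_mul_self (hζ j).1, one_mul] at h5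
      exact h5
    have f0 : (e 0 : L2) t = w 0 * (u / (1 - (starRingEnd ℂ) (ζ 0) * z) / (c 0 : ℂ)) := h0
    have f1 : (e 1 : L2) t = w 1 * (u / (1 - (starRingEnd ℂ) (ζ 1) * z) / (c 1 : ℂ)) := h1
    have f2 : (e 2 : L2) t = w 2 * (u / (1 - (starRingEnd ℂ) (ζ 2) * z) / (c 2 : ℂ)) := h2
    have p01 := prod_form (u := u) (w' := w 1) (ζ' := ζ 1) (c := c 0) (c' := c 1) hα (hζ 0).1
      (hζ 0).2.2 hz1 n0
    have p12 := prod_form (u := u) (w' := w 2) (ζ' := ζ 2) (c := c 1) (c' := c 2) hα (hζ 1).1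
      (hζ 1).2.2 hz1 n1
    have p20 := prod_form (u := u) (w' := w 0) (ζ' := ζ 0) (c := c 2) (c' := c 0) hα (hζ 2).1
      (hζ 2).2.2 hz1 n2
    rw [← f0, ← f1] at p01
    rw [← f1, ← f2] at p12
    rw [← f2, ← f0] at p20
    have a0 := hane 0 n0
    have a1 := hane 1 n1
    have a2 := hane 2 n2
    have c0 : (c 0 : ℂ) ≠ 0 := ofReal_ne_zero.2 (hc0 0)
    have c1 : (c 1 : ℂ) ≠ 0 := ofReal_ne_zero.2 (hc0 1)
    have c2 : (c 2 : ℂ) ≠ 0 := ofReal_ne_zero.2 (hc0 2)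
    have w0 := hw0 0
    have w1 := hw0 1
    have w2 := hw0 2
    set G := -(z * (starRingEnd ℂ) α * ((starRingEnd ℂ) u * u)) with hG
    have q01 : κ 0 1 * ((starRingEnd ℂ) ((e 0 : L2) t) * (φ t * (e 1 : L2) t)) =
        φ t * G * (((starRingEnd ℂ) (ζ 0) - (starRingEnd ℂ) (ζ 1)) /
          ((1 - (starRingEnd ℂ) (ζ 0) * z) * (1 - (starRingEnd ℂ) (ζ 1) * z))) := by
      have : (starRingEnd ℂ) ((e 0 : L2) t) * (φ t * (e 1 : L2) t)
          = φ t * ((starRingEnd ℂ) ((e 0 : L2) t) * (e 1 : L2) t) := by ring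
      rw [this, p01, hκ]
      field_simp
    have q12 : κ 1 2 * ((starRingEnd ℂ) ((e 1 : L2) t) * (φ t * (e 2 : L2) t)) =
        φ t * G * (((starRingEnd ℂ) (ζ 1) - (starRingEnd ℂ) (ζ 2)) /
          ((1 - (starRingEnd ℂ) (ζ 1) * z) * (1 - (starRingEnd ℂ) (ζ 2) * z))) := by
      have : (starRingEnd ℂ) ((e 1 : L2) t) * (φ t * (e 2 : L2) t)
          = φ t * ((starRingEnd ℂ) ((e 1 : L2) t) * (e 2 : L2) t) := by ring
      rw [this, p12, hκ]
      field_simp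
    have q20 : κ 2 0 * ((starRingEnd ℂ) ((e 2 : L2) t) * (φ t * (e 0 : L2) t)) =
        φ t * G * (((starRingEnd ℂ) (ζ 2) - (starRingEnd ℂ) (ζ 0)) /
          ((1 - (starRingEnd ℂ) (ζ 2) * z) * (1 - (starRingEnd ℂ) (ζ 0) * z))) := by
      have : (starRingEnd ℂ) ((e 2 : L2) t) * (φ t * (e 0 : L2) t)
          = φ t * ((starRingEnd ℂ) ((e 2 : L2) t) * (e 0 : L2) t) := by ring
      rw [this, p20, hκ]
      field_simp
    rw [q01, q12, q20, ← mul_add, ← mul_add]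
    rw [three_term a0 a1 a2, mul_zero]
  have hrel : κ 0 1 * M0 0 1 + κ 1 2 * M0 1 2 + κ 2 0 * M0 2 0 = 0 := by
    have h1 := integral_congr_ae hae
    have h2 := integral_add (μ := haarAddCircle) (((hint 0 1).const_mul (κ 0 1)).add ((hint 1 2).const_mul (κ 1 2)))
        ((hint 2 0).const_mul (κ 2 0))
    have h3 := integral_add (μ := haarAddCircle) ((hint 0 1).const_mul (κ 0 1)) ((hint 1 2).const_mul (κ 1 2))
    simp only [Pi.add_apply] at h2
    rw [hMij, hMij, hMij, ← integral_const_mul, ← integral_const_mul, ← integral_const_mul,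
      ← h3, ← h2, h1]
    simp
  have hrel2 : κ 0 1 = I * κ 1 2 := by
    have h1 : M0 0 1 = 1 := rfl
    have h2 : M0 1 2 = -I := rfl
    have h3 : M0 2 0 = 0 := rfl
    rw [h1, h2, h3] at hrel
    linear_combination hrel
  -- the coefficients are real multiples of a fixed number
  have hreal : ∀ i j, α * κ i j = 2 * I * ((c i * c j * (w i * (starRingEnd ℂ) (w j)).im : ℝ) : ℂ) := by
    intro i j
    have e1 : (starRingEnd ℂ) (ζ i) = (starRingEnd ℂ) α * w i ^ 2 := by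
      rw [(hζ i).2.2, ← mul_assoc, conj_mul_self hα, one_mul]
    have e2 : (starRingEnd ℂ) (ζ j) = (starRingEnd ℂ) α * w j ^ 2 := by
      rw [(hζ j).2.2, ← mul_assoc, conj_mul_self hα, one_mul]
    have e3 : α * (starRingEnd ℂ) α = 1 := by rw [mul_comm]; exact conj_mul_self hα
    have e4 : (starRingEnd ℂ) (w i) = (w i)⁻¹ := eq_inv_of_mul_eq_one_left (conj_mul_self (hwn i))
    have e5 : (starRingEnd ℂ) (w j) = (w j)⁻¹ := eq_inv_of_mul_eq_one_left (conj_mul_self (hwn j))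
    have e6 : (2 * I : ℂ) * (((w i * (starRingEnd ℂ) (w j)).im : ℝ) : ℂ)
        = w i * (starRingEnd ℂ) (w j) - (starRingEnd ℂ) (w i * (starRingEnd ℂ) (w j)) := by
      rw [sub_conj]
      push_cast
      ring
    have e7 : α * κ i j = (c i * c j : ℂ) * (w i * (starRingEnd ℂ) (w j) -
        (starRingEnd ℂ) (w i * (starRingEnd ℂ) (w j))) := by
      rw [map_mul, conj_conj, e4, e5, hκ]
      simp only
      rw [e1, e2]
      have := hw0 i
      have := hw0 j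
      field_simp
      linear_combination ((w i ^ 2 - w j ^ 2) * c i * c j) * e3
    rw [e7, ← e6]
    push_cast
    ring
  have h1 := hreal 0 1
  have h2 := hreal 1 2
  rw [hrel2] at h1
  have h3 : I * (α * κ 1 2) = 2 * I * ((c 0 * c 1 * (w 0 * (starRingEnd ℂ) (w 1)).im : ℝ) : ℂ) := by
    rw [← h1]; ring
  rw [h2] at h3
  have h4 : I * ((c 1 * c 2 * (w 1 * (starRingEnd ℂ) (w 2)).im : ℝ) : ℂ) =
      ((c 0 * c 1 * (w 0 * (starRingEnd ℂ) (w 1)).im : ℝ) : ℂ) := by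
    have hI : (2 * I : ℂ) ≠ 0 := mul_ne_zero two_ne_zero I_ne_zero
    apply mul_left_cancel₀ hI
    rw [← h3]
    ring
  have h5 := congrArg Complex.re h4
  rw [re_mul_ofReal, I_re, zero_mul, ofReal_re] at h5
  have h6 : (w 0 * (starRingEnd ℂ) (w 1)).im = 0 := by
    rcases mul_eq_zero.1 h5.symm with h | h
    · exact absurd h (mul_ne_zero (hc0 0) (hc0 1))
    · exact h
  -- so `ζ 0 = ζ 1`
  have h7 : κ 0 1 = 0 := by
    have h8 := hreal 0 1
    rw [h6, mul_zero] at h8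
    have hα0 : α ≠ 0 := by intro h; rw [h, norm_zero] at hα; exact zero_ne_one hα
    simpa [hα0] using h8
  have h9 : (starRingEnd ℂ) (ζ 0) - (starRingEnd ℂ) (ζ 1) = 0 := by
    have h10 : ((starRingEnd ℂ) (ζ 0) - (starRingEnd ℂ) (ζ 1)) * ((c 0 : ℂ) * (c 1 : ℂ)) /
      (w 0 * w 1) = 0 := h7
    rw [div_eq_zero_iff] at h10
    rcases h10 with h | h
    · rcases mul_eq_zero.1 h with h | h
      · exact h
      · exact absurd h (mul_ne_zero (ofReal_ne_zero.2 (hc0 0)) (ofReal_ne_zero.2 (hc0 1)))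
    · exact absurd h (mul_ne_zero (hw0 0) (hw0 1))
  have h11 : ζ 0 = ζ 1 := by
    rw [← map_sub, map_eq_zero, sub_eq_zero] at h9
    exact h9
  exact absurd (hinj h11) (by decide)

/-! ### the positive part -/

/-- the inner function `z ^ 3` -/
def Th3 (z : ℂ) : ℂ := z ^ 3

/-- the monomials -/
noncomputable def F (k : ℤ) : L2 := fourierLp 2 k

lemma F_ae (k : ℤ) : ((F k : L2) : Ci → ℂ) =ᵐ[haarAddCircle] fun t => (fourier k t : ℂ) :=
  coeFn_fourierLp 2 k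

lemma inner_F_eq (k : ℤ) (f : L2) : ⟪F k, f⟫_ℂ = fourierCoeff (f : Ci → ℂ) k := by
  rw [← fourierBasis_repr, HilbertBasis.repr_apply_apply, coe_fourierBasis]
  rfl

lemma inner_FF (j k : ℤ) : ⟪F j, F k⟫_ℂ = if j = k then 1 else 0 :=
  (orthonormal_iff_ite.1 (orthonormal_fourier (T := (1 : ℝ)))) j k

lemma mem_hardy_iff (f : L2) : InHardy f ↔ ∀ k : ℤ, k < 0 → ⟪F k, f⟫_ℂ = 0 := by
  simp only [inner_F_eq]
  rfl

lemma F_mem_hardy {k : ℤ} (hk : 0 ≤ k) : InHardy (F k) := by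
  rw [mem_hardy_iff]
  intro j hj
  rw [inner_FF, if_neg (by omega)]

lemma pt_pow (t : Ci) : pt t ^ 3 = (fourier 3 t : ℂ) := by
  have h : (3 : ℤ) = 1 + 1 + 1 := by norm_num
  rw [h, fourier_add, fourier_add, pt]
  ring

lemma coeff_shift {g h : L2} (hgh : (h : Ci → ℂ) =ᵐ[haarAddCircle]
    fun t => Th3 (pt t) * (g : Ci → ℂ) t) (k : ℤ) :
    ⟪F k, h⟫_ℂ = ⟪F (k - 3), g⟫_ℂ := by
  rw [inner_F_eq, inner_F_eq, fourierCoeff, fourierCoeff]
  apply integral_congr_ae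
  filter_upwards [hgh] with t ht
  rw [ht, Th3, pt_pow, smul_eq_mul, smul_eq_mul, ← mul_assoc, ← fourier_add]
  congr 2
  congr 1
  ring

lemma model_coeff {f : L2} (hf : InModel Th3 f) {k : ℤ} (hk : k < 0 ∨ 3 ≤ k) :
    ⟪F k, f⟫_ℂ = 0 := by
  rcases hk with hk | hk
  · exact (mem_hardy_iff f).1 hf.1 k hk
  · refine hf.2 (F (k - 3)) (F k) (F_mem_hardy (by omega)) ?_
    filter_upwards [F_ae k, F_ae (k - 3)] with t h1 h2
    rw [h1, h2, Th3, pt_pow, ← fourier_add]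
    congr 2
    ring

lemma F_mem_model {k : ℤ} (h0 : 0 ≤ k) (h3 : k < 3) : InModel Th3 (F k) := by
  refine ⟨F_mem_hardy h0, ?_⟩
  intro g h hg hx
  rw [ip, ← inner_conj_symm, coeff_shift hx, (mem_hardy_iff g).1 hg _ (by omega), map_zero]

lemma model_add {Θ : ℂ → ℂ} {f g : L2} (hf : InModel Θ f) (hg : InModel Θ g) :
    InModel Θ (f + g) := by
  refine ⟨?_, ?_⟩
  · rw [mem_hardy_iff]
    intro k hk
    rw [inner_add_right, (mem_hardy_iff f).1 hf.1 k hk, (mem_hardy_iff g).1 hg.1 k hk, add_zero]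
  · intro u v hu hv
    have h1 := hf.2 u v hu hv
    have h2 := hg.2 u v hu hv
    unfold ip at h1 h2 ⊢
    rw [inner_add_right, h1, h2, add_zero]

lemma model_smul {Θ : ℂ → ℂ} {f : L2} (c : ℂ) (hf : InModel Θ f) :
    InModel Θ (c • f) := by
  refine ⟨?_, ?_⟩
  · rw [mem_hardy_iff]
    intro k hk
    rw [inner_smul_right, (mem_hardy_iff f).1 hf.1 k hk, mul_zero]
  · intro u v hu hv
    have h1 := hf.2 u v hu hv
    unfold ip at h1 ⊢
    rw [inner_smul_right, h1, mul_zero]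

lemma model_expand {f : L2} (hf : InModel Th3 f) :
    f = ⟪F 0, f⟫_ℂ • F 0 + ⟪F 1, f⟫_ℂ • F 1 + ⟪F 2, f⟫_ℂ • F 2 := by
  have h1 := (fourierBasis (T := (1 : ℝ))).hasSum_repr f
  have h2 : ∀ k : ℤ, (fourierBasis (T := (1 : ℝ))).repr f k • (fourierBasis (T := (1 : ℝ))) k
      = ⟪F k, f⟫_ℂ • F k := by
    intro k
    rw [inner_F_eq, fourierBasis_repr, coe_fourierBasis]
    rfl
  simp only [h2] at h1
  have h3 : HasSum (fun k : ℤ => ⟪F k, f⟫_ℂ • F k) (∑ k ∈ ({0, 1, 2} : Finset ℤ), ⟪F k, f⟫_ℂ • F k) := by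
    apply hasSum_sum_of_ne_finset_zero
    intro k hk
    have : k < 0 ∨ 3 ≤ k := by
      by_contra hcon
      push Not at hcon
      apply hk
      simp only [Finset.mem_insert, Finset.mem_singleton]
      omega
    rw [model_coeff hf this, zero_smul]
  have h4 := h1.unique h3
  rw [Finset.sum_insert (by decide), Finset.sum_insert (by decide), Finset.sum_singleton,
    ← add_assoc] at h4
  exact h4

/-- the truncated Toeplitz operator -/
noncomputable def A3 (f : L2) : L2 :=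
  ((Real.sqrt 2 : ℝ) : ℂ) • (⟪F 1, f⟫_ℂ • F 0 + ⟪F 2, f⟫_ℂ • F 1)

/-- the symbol -/
noncomputable def phi (t : Ci) : ℂ := ((Real.sqrt 2 : ℝ) : ℂ) * (fourier (-1) t : ℂ)

lemma phi_mem : MemLp phi ⊤ (haarAddCircle : Measure Ci) := by
  have h1 : Continuous phi := by
    unfold phi
    exact continuous_const.mul (ContinuousMap.continuous _)
  apply memLp_top_of_bound h1.aestronglyMeasurable (Real.sqrt 2)
  refine Filter.Eventually.of_forall fun t => ?_
  rw [phi, norm_mul, fourier_apply, Circle.norm_coe, mul_one, Complex.norm_real,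
    Real.norm_of_nonneg (Real.sqrt_nonneg _)]

lemma A3_isTTO : IsTTO Th3 phi A3 := by
  intro f hfm
  refine ⟨?_, ?_⟩
  · exact model_smul _ (model_add (model_smul _ (F_mem_model (by norm_num) (by norm_num)))
      (model_smul _ (F_mem_model (by norm_num) (by norm_num))))
  intro g hgm
  set r : ℂ := ((Real.sqrt 2 : ℝ) : ℂ) with hr
  set c0 := ⟪F 0, (f : L2)⟫_ℂ with hc0
  set c1 := ⟪F 1, (f : L2)⟫_ℂ with hc1
  set c2 := ⟪F 2, (f : L2)⟫_ℂ with hc2
  set h : L2 := r • (c0 • F (-1) + c1 • F 0 + c2 • F 1) with hh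
  have hf : (f : L2) = c0 • F 0 + c1 • F 1 + c2 • F 2 := model_expand hfm
  have hae : (fun t => (starRingEnd ℂ) ((g : L2) t) * (phi t * (f : L2) t))
      =ᵐ[haarAddCircle] fun t => ⟪(g : L2) t, h t⟫_ℂ := by
    have e1 : (((f : L2)) : Ci → ℂ) =ᵐ[haarAddCircle]
        fun t => c0 * fourier 0 t + c1 * fourier 1 t + c2 * fourier 2 t := by
      rw [hf]
      filter_upwards [Lp.coeFn_add (c0 • F 0 + c1 • F 1) (c2 • F 2),
        Lp.coeFn_add (c0 • F 0) (c1 • F 1), Lp.coeFn_smul c0 (F 0), Lp.coeFn_smul c1 (F 1),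
        Lp.coeFn_smul c2 (F 2), F_ae 0, F_ae 1, F_ae 2] with t k1 k2 k3 k4 k5 k6 k7 k8
      rw [k1, Pi.add_apply, k2, Pi.add_apply, k3, k4, k5, Pi.smul_apply, Pi.smul_apply,
        Pi.smul_apply, k6, k7, k8, smul_eq_mul, smul_eq_mul, smul_eq_mul]
    have e2 : (h : Ci → ℂ) =ᵐ[haarAddCircle]
        fun t => r * (c0 * fourier (-1) t + c1 * fourier 0 t + c2 * fourier 1 t) := by
      filter_upwards [Lp.coeFn_smul r (c0 • F (-1) + c1 • F 0 + c2 • F 1),
        Lp.coeFn_add (c0 • F (-1) + c1 • F 0) (c2 • F 1),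
        Lp.coeFn_add (c0 • F (-1)) (c1 • F 0), Lp.coeFn_smul c0 (F (-1)),
        Lp.coeFn_smul c1 (F 0),
        Lp.coeFn_smul c2 (F 1), F_ae (-1), F_ae 0, F_ae 1] with t k0 k1 k2 k3 k4 k5 k6 k7 k8
      rw [hh, k0, Pi.smul_apply, k1, Pi.add_apply, k2, Pi.add_apply, k3, k4, k5, Pi.smul_apply,
        Pi.smul_apply, Pi.smul_apply, k6, k7, k8, smul_eq_mul, smul_eq_mul, smul_eq_mul,
        smul_eq_mul]
    filter_upwards [e1, e2] with t k1 k2
    rw [k1, k2, RCLike.inner_apply, phi, mul_comm ((starRingEnd ℂ) ((g : L2) t))]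
    congr 1
    have m0 : (fourier (-1) t : ℂ) * fourier 0 t = fourier (-1) t := by
      rw [← fourier_add]; rfl
    have m1 : (fourier (-1) t : ℂ) * fourier 1 t = fourier 0 t := by
      rw [← fourier_add]; rfl
    have m2 : (fourier (-1) t : ℂ) * fourier 2 t = fourier 1 t := by
      rw [← fourier_add]; rfl
    calc r * fourier (-1) t * (c0 * fourier 0 t + c1 * fourier 1 t + c2 * fourier 2 t)
        = r * (c0 * (fourier (-1) t * fourier 0 t) + c1 * (fourier (-1) t * fourier 1 t) +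
            c2 * (fourier (-1) t * fourier 2 t)) := by ring
      _ = _ := by rw [m0, m1, m2]
  rw [integral_congr_ae hae, ← L2.inner_def]
  have hg : ⟪(g : L2), F (-1)⟫_ℂ = 0 := by
    rw [← inner_conj_symm, model_coeff hgm (Or.inl (by norm_num)), map_zero]
  have hA : (A3 f : L2) = r • (c1 • F 0 + c2 • F 1) := rfl
  rw [hA, hh, ip]
  simp only [inner_smul_right, inner_add_right, hg]
  ring

/-- the basis vectors -/
noncomputable def bv : Fin 3 → L2 :=
  ![((Real.sqrt 2 : ℝ) : ℂ)⁻¹ • (F 0 + F 2), F 1,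
    (I * ((Real.sqrt 2 : ℝ) : ℂ)⁻¹) • (F 0 - F 2)]

lemma sqrt2_sq : (((Real.sqrt 2 : ℝ) : ℂ)⁻¹) * (((Real.sqrt 2 : ℝ) : ℂ)⁻¹) = 2⁻¹ := by
  rw [← mul_inv, ← ofReal_mul, Real.mul_self_sqrt (by norm_num)]
  norm_num

lemma G_inner : ⟪F 0, F 0⟫_ℂ = 1 ∧ ⟪F 0, F 1⟫_ℂ = 0 ∧ ⟪F 0, F 2⟫_ℂ = 0 ∧ ⟪F 1, F 0⟫_ℂ = 0 ∧
    ⟪F 1, F 1⟫_ℂ = 1 ∧ ⟪F 1, F 2⟫_ℂ = 0 ∧ ⟪F 2, F 0⟫_ℂ = 0 ∧ ⟪F 2, F 1⟫_ℂ = 0 ∧
    ⟪F 2, F 2⟫_ℂ = 1 := by
  refine ⟨?_, ?_, ?_, ?_, ?_, ?_, ?_, ?_, ?_⟩ <;>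
    · rw [inner_FF]
      norm_num

lemma gen_orth {E : Type*} [NormedAddCommGroup E] [InnerProductSpace ℂ E] {g0 g1 g2 : E} {s : ℂ}
    (hs : s * s = 2⁻¹) (hconj : (starRingEnd ℂ) s = s)
    (h00 : ⟪g0, g0⟫_ℂ = 1) (h01 : ⟪g0, g1⟫_ℂ = 0) (h02 : ⟪g0, g2⟫_ℂ = 0) (h10 : ⟪g1, g0⟫_ℂ = 0)
    (h11 : ⟪g1, g1⟫_ℂ = 1) (h12 : ⟪g1, g2⟫_ℂ = 0) (h20 : ⟪g2, g0⟫_ℂ = 0)
    (h21 : ⟪g2, g1⟫_ℂ = 0) (h22 : ⟪g2, g2⟫_ℂ = 1) {b : Fin 3 → E}
    (e0 : b 0 = s • (g0 + g2)) (e1 : b 1 = g1) (e2 : b 2 = (I * s) • (g0 - g2)) (i j : Fin 3) :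
    ⟪b i, b j⟫_ℂ = if i = j then 1 else 0 := by
  have hconjI : (starRingEnd ℂ) (I * s) = -I * s := by
    rw [map_mul, conj_I, hconj]
  fin_cases i <;> fin_cases j
  · change ⟪b 0, b 0⟫_ℂ = 1
    rw [e0]
    simp only [inner_add_left, inner_add_right, inner_smul_left, inner_smul_right, hconj,
      h00, h02, h20, h22]
    linear_combination (2 : ℂ) * hs
  · change ⟪b 0, b 1⟫_ℂ = 0
    rw [e0, e1]
    simp only [inner_add_left, inner_smul_left, h01, h21]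
    ring
  · change ⟪b 0, b 2⟫_ℂ = 0
    rw [e0, e2]
    simp only [inner_add_left, inner_sub_right, inner_smul_left, inner_smul_right, hconj,
      h00, h02, h20, h22]
    ring
  · change ⟪b 1, b 0⟫_ℂ = 0
    rw [e0, e1]
    simp only [inner_add_right, inner_smul_right, h10, h12]
    ring
  · change ⟪b 1, b 1⟫_ℂ = 1
    rw [e1, h11]
  · change ⟪b 1, b 2⟫_ℂ = 0
    rw [e1, e2]
    simp only [inner_sub_right, inner_smul_right, h10, h12]
    ring
  · change ⟪b 2, b 0⟫_ℂ = 0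
    rw [e0, e2]
    simp only [inner_add_right, inner_sub_left, inner_smul_left, inner_smul_right, hconjI,
      h00, h02, h20, h22]
    ring
  · change ⟪b 2, b 1⟫_ℂ = 0
    rw [e1, e2]
    simp only [inner_sub_left, inner_smul_left, h01, h21]
    ring
  · change ⟪b 2, b 2⟫_ℂ = 1
    rw [e2]
    simp only [inner_sub_left, inner_sub_right, inner_smul_left, inner_smul_right, hconjI,
      h00, h02, h20, h22]
    linear_combination (2 : ℂ) * hs - 2 * s ^ 2 * I_sq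

lemma gen_matrix {E : Type*} [NormedAddCommGroup E] [InnerProductSpace ℂ E] {g0 g1 g2 : E} {s r : ℂ}
    (hs1 : s * r = 1) (hconj : (starRingEnd ℂ) s = s)
    (h00 : ⟪g0, g0⟫_ℂ = 1) (h01 : ⟪g0, g1⟫_ℂ = 0) (h10 : ⟪g1, g0⟫_ℂ = 0)
    (h11 : ⟪g1, g1⟫_ℂ = 1) (h20 : ⟪g2, g0⟫_ℂ = 0)
    (h21 : ⟪g2, g1⟫_ℂ = 0) {b : Fin 3 → E}
    (e0 : b 0 = s • (g0 + g2)) (e1 : b 1 = g1) (e2 : b 2 = (I * s) • (g0 - g2))
    {A : E → E} (b0 : A (b 0) = g1) (b1 : A (b 1) = r • g0) (b2 : A (b 2) = -I • g1)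
    (i j : Fin 3) : M0 i j = ⟪b i, A (b j)⟫_ℂ := by
  have hconjI : (starRingEnd ℂ) (I * s) = -I * s := by
    rw [map_mul, conj_I, hconj]
  fin_cases i <;> fin_cases j
  · change (0 : ℂ) = ⟪b 0, A (b 0)⟫_ℂ
    rw [b0, e0]
    simp only [inner_add_left, inner_smul_left, h01, h21]
    ring
  · change (1 : ℂ) = ⟪b 0, A (b 1)⟫_ℂ
    rw [b1, e0]
    simp only [inner_add_left, inner_smul_left, inner_smul_right, h00, h20, hconj]
    linear_combination -hs1
  · change (0 : ℂ) = ⟪b 0, A (b 2)⟫_ℂ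
    rw [b2, e0]
    simp only [inner_add_left, inner_smul_left, inner_smul_right, h01, h21]
    ring
  · change (1 : ℂ) = ⟪b 1, A (b 0)⟫_ℂ
    rw [b0, e1, h11]
  · change (0 : ℂ) = ⟪b 1, A (b 1)⟫_ℂ
    rw [b1, e1, inner_smul_right, h10, mul_zero]
  · change (-I : ℂ) = ⟪b 1, A (b 2)⟫_ℂ
    rw [b2, e1, inner_smul_right, h11, mul_one]
  · change (0 : ℂ) = ⟪b 2, A (b 0)⟫_ℂ
    rw [b0, e2]
    simp only [inner_sub_left, inner_smul_left, h01, h21]
    ring
  · change (-I : ℂ) = ⟪b 2, A (b 1)⟫_ℂ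
    rw [b1, e2]
    simp only [inner_sub_left, inner_smul_left, inner_smul_right, h00, h20, hconjI]
    linear_combination I * hs1
  · change (0 : ℂ) = ⟪b 2, A (b 2)⟫_ℂ
    rw [b2, e2]
    simp only [inner_sub_left, inner_smul_left, inner_smul_right, h01, h21]
    ring

lemma bv_basis : IsBasis Th3 bv := by
  obtain ⟨h00, h01, h02, h10, h11, h12, h20, h21, h22⟩ := G_inner
  have hconj : (starRingEnd ℂ) ((Real.sqrt 2 : ℝ) : ℂ)⁻¹ = ((Real.sqrt 2 : ℝ) : ℂ)⁻¹ := by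
    rw [map_inv₀, conj_ofReal]
  have hconjI : (starRingEnd ℂ) (I * ((Real.sqrt 2 : ℝ) : ℂ)⁻¹) =
      -I * ((Real.sqrt 2 : ℝ) : ℂ)⁻¹ := by
    rw [map_mul, conj_I, hconj]
  have m0 : InModel Th3 (F 0) := F_mem_model (by norm_num) (by norm_num)
  have m1 : InModel Th3 (F 1) := F_mem_model (by norm_num) (by norm_num)
  have m2 : InModel Th3 (F 2) := F_mem_model (by norm_num) (by norm_num)
  refine ⟨?_, gen_orth sqrt2_sq hconj h00 h01 h02 h10 h11 h12 h20 h21 h22 rfl rfl rfl, ?_⟩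
  · intro i
    fin_cases i
    · exact model_smul _ (model_add m0 m2)
    · exact m1
    · change InModel Th3 ((I * ((Real.sqrt 2 : ℝ) : ℂ)⁻¹) • (F 0 - F 2))
      rw [sub_eq_add_neg, ← neg_one_smul ℂ (F 2)]
      exact model_smul _ (model_add m0 (model_smul _ m2))
  · intro f hf
    have hexp := model_expand hf
    have hs := sqrt2_sq
    have e0 : bv 0 = ((Real.sqrt 2 : ℝ) : ℂ)⁻¹ • (F 0 + F 2) := rfl
    have e1 : bv 1 = F 1 := rfl
    have e2 : bv 2 = (I * ((Real.sqrt 2 : ℝ) : ℂ)⁻¹) • (F 0 - F 2) := rfl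
    rw [Fin.sum_univ_three, e0, e1, e2]
    unfold ip
    set s : ℂ := ((Real.sqrt 2 : ℝ) : ℂ)⁻¹ with hsdef
    rw [inner_smul_left, inner_add_left, inner_smul_left, inner_sub_left, hconj, hconjI]
    set c0 := ⟪F 0, (f : L2)⟫_ℂ with hc0
    set c1 := ⟪F 1, (f : L2)⟫_ℂ with hc1
    set c2 := ⟪F 2, (f : L2)⟫_ℂ with hc2
    rw [hexp]
    simp only [smul_add, smul_sub, smul_smul]
    have k1 : s * (c0 + c2) * s = 2⁻¹ * (c0 + c2) := by linear_combination (c0 + c2) * hs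
    have k2 : -I * s * (c0 - c2) * (I * s) = 2⁻¹ * (c0 - c2) := by
      linear_combination (c0 - c2) * hs - s ^ 2 * (c0 - c2) * I_sq
    rw [k1, k2]
    module

lemma A_F0 : A3 (F 0) = 0 := by
  rw [A3, inner_FF, inner_FF, if_neg (by norm_num), if_neg (by norm_num), zero_smul, zero_smul,
    add_zero, smul_zero]

lemma A_F1 : A3 (F 1) = ((Real.sqrt 2 : ℝ) : ℂ) • F 0 := by
  rw [A3, inner_FF, inner_FF, if_pos rfl, if_neg (by norm_num), one_smul, zero_smul,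
    add_zero]

lemma A_F2 : A3 (F 2) = ((Real.sqrt 2 : ℝ) : ℂ) • F 1 := by
  rw [A3, inner_FF, inner_FF, if_neg (by norm_num), if_pos rfl, one_smul, zero_smul,
    zero_add]

lemma A3_add (f g : L2) : A3 (f + g) = A3 f + A3 g := by
  simp only [A3, inner_add_right, add_smul, smul_add]
  abel

lemma A3_smul (c : ℂ) (f : L2) : A3 (c • f) = c • A3 f := by
  simp only [A3, inner_smul_right, smul_add, smul_smul]
  congr 2 <;> ring

lemma A3_sub (f g : L2) : A3 (f - g) = A3 f - A3 g := by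
  rw [sub_eq_add_neg, ← neg_one_smul ℂ g, A3_add, A3_smul, neg_one_smul, sub_eq_add_neg]

lemma unitary_equiv : UnitarilyEquivalentToTTO M0 := by
  refine ⟨Th3, phi, A3, bv, ?_, phi_mem, A3_isTTO, bv_basis, ?_⟩
  · refine ⟨1, fun _ => 0, norm_one, fun _ => by simp, fun z => ?_⟩
    simp [Th3]
  · obtain ⟨h00, h01, h02, h10, h11, h12, h20, h21, h22⟩ := G_inner
    have hs1 : ((Real.sqrt 2 : ℝ) : ℂ)⁻¹ * ((Real.sqrt 2 : ℝ) : ℂ) = 1 :=
      inv_mul_cancel₀ (ofReal_ne_zero.2 (by positivity))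
    have hconj : (starRingEnd ℂ) ((Real.sqrt 2 : ℝ) : ℂ)⁻¹ = ((Real.sqrt 2 : ℝ) : ℂ)⁻¹ := by
      rw [map_inv₀, conj_ofReal]
    have e0 : bv 0 = ((Real.sqrt 2 : ℝ) : ℂ)⁻¹ • (F 0 + F 2) := rfl
    have e1 : bv 1 = F 1 := rfl
    have e2 : bv 2 = (I * ((Real.sqrt 2 : ℝ) : ℂ)⁻¹) • (F 0 - F 2) := rfl
    have b0 : A3 (bv 0) = F 1 := by
      rw [e0, A3_smul, A3_add, A_F0, A_F2, zero_add, smul_smul, hs1, one_smul]
    have b1 : A3 (bv 1) = ((Real.sqrt 2 : ℝ) : ℂ) • F 0 := by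
      rw [e1, A_F1]
    have b2 : A3 (bv 2) = -I • F 1 := by
      rw [e2, A3_smul, A3_sub, A_F0, A_F2, zero_sub, smul_neg, smul_smul, mul_assoc, hs1,
        mul_one, neg_smul]
    intro i j
    exact gen_matrix (A := A3) hs1 hconj h00 h01 h10 h11 h20 h21 e0 e1 e2 b0 b1 b2 i j

/-- There is a complex symmetric `3 × 3` matrix which is unitarily equivalent to a truncated
Toeplitz operator, but which is not the matrix of any truncated Toeplitz operator with respect to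
any modified Aleksandrov-Clark basis. -/
theorem result : ∃ M : Matrix (Fin 3) (Fin 3) ℂ, M.transpose = M ∧
    UnitarilyEquivalentToTTO M ∧ ¬ ModifiedClarkMatrix M := by
  refine ⟨M0, ?_, unitary_equiv, not_modified⟩
  ext i j
  fin_cases i <;> fin_cases j <;> rfl

end Pool.Agent.Results.MP_3119c3_an.ClarkBasisCounterexample
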